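import Pool.Agent.AEN.Stmts

/-!
# Anderson model, the cheap end, row FTU (helper32): Fatou and Tonelli
-/

set_option autoImplicit false

open MeasureTheory ProbabilityTheory Function Filter

open scoped ENNReal BigOperators InnerProductSpace Topology

noncomputable section

namespace Pool.Agent.AEN.H32

open Pool.Agent.Anderson Pool.Agent.Loc Pool.Agent.Helper54.Bal

/-- joint continuity of `(V, E) ↦ G (E + i η_n; 0, 0)` -/
theorem cont_J (d : ℕ) (n : ℕ) :
    Continuous fun p : (Site d → ℝ) × ℝ => Gn p.1 p.2 n 0 0 := by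
  have h0 : Continuous fun p : (Site d → ℝ) × ℝ =>
      ((p.1, p.2, (del 0 : L2 d)) : (Site d → ℝ) × ℝ × L2 d) := by
    fun_prop
  have h := (continuous_G (d := d) (η := et n) (et_pos n).ne').comp h0
  have h2 : (fun p : (Site d → ℝ) × ℝ => Gn p.1 p.2 n 0 0) =
      fun p : (Site d → ℝ) × ℝ => ⟪(del 0 : L2 d), G p.1 (zz (et n) p.2) (del 0)⟫_ℂ := by
    funext p
    rw [inner_del_left]
    rfl
  rw [h2]
  exact continuous_const.inner h

theorem meas_J (d : ℕ) (n : ℕ) :
    Measurable fun p : (Site d → ℝ) × ℝ => ENNReal.ofReal (et n * ‖Gn p.1 p.2 n 0 0‖ ^ 2) :=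
  (((cont_J d n).norm.pow 2).measurable.const_mul (et n)).ennreal_ofReal

theorem meas_II (d : ℕ) (a b : ℝ) (n : ℕ) : Measurable fun V : Site d → ℝ => II V a b n :=
  Measurable.lintegral_prod_right' (ν := (volume : Measure ℝ).restrict (Set.Ioo a b)) (meas_J d n)

theorem meas_JJ (d : ℕ) (σ : ℝ) (n : ℕ) : Measurable fun E : ℝ => JJ d σ E n :=
  Measurable.lintegral_prod_left' (μ := PP d (gl σ)) (meas_J d n)

/-- Tonelli -/
theorem ton (d : ℕ) (σ a b : ℝ) (n : ℕ) :
    ∫⁻ V, II V a b n ∂(PP d (gl σ)) = ∫⁻ E in Set.Ioo a b, JJ d σ E n := by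
  unfold II JJ
  exact lintegral_lintegral_swap (meas_J d n).aemeasurable

/-- FTU -/
theorem ftu (dcy : DcyStmt) : FtuStmt := by
  intro d σ a b hσ hE
  -- the integrals tend to zero
  have h1 : Tendsto (fun n => ∫⁻ E in Set.Ioo a b, JJ d σ E n) atTop (𝓝 0) := by
    have h2 := tendsto_lintegral_of_dominated_convergence
      (μ := (volume : Measure ℝ).restrict (Set.Ioo a b)) (F := fun n E => JJ d σ E n)
      (f := fun _ => 0) (fun _ => ENNReal.ofReal (cs σ)) (meas_JJ d σ)
      (fun n => Filter.Eventually.of_forall fun E => (dcy d σ E hσ).1 n)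
      (by
        rw [lintegral_const, Measure.restrict_apply_univ, Real.volume_Ioo]
        exact ENNReal.mul_ne_top ENNReal.ofReal_ne_top ENNReal.ofReal_ne_top)
      (by
        filter_upwards [hE] with E h
        exact (dcy d σ E hσ).2 h)
    rw [lintegral_zero] at h2
    exact h2
  -- Fatou
  have h3 : ∫⁻ V, liminf (fun n => II V a b n) atTop ∂(PP d (gl σ)) ≤ 0 := by
    refine (lintegral_liminf_le (meas_II d a b)).trans ?_
    have h4 : (fun n => ∫⁻ V, II V a b n ∂(PP d (gl σ))) =
        fun n => ∫⁻ E in Set.Ioo a b, JJ d σ E n := funext fun n => ton d σ a b n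
    rw [h4, h1.liminf_eq]
  have h5 := (lintegral_eq_zero_iff (Measurable.liminf fun n => meas_II d a b n)).1
    (le_antisymm h3 zero_le)
  filter_upwards [h5] with V hV
  exact hV

end Pool.Agent.AEN.H32
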